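import Mathlib

/-!
# The random König graph process: definitions
-/

namespace Q299.Konig

/-- The matching number: the largest number of edges of a matching of `G`
(matchings are Mathlib's `SimpleGraph.Subgraph.IsMatching`). -/
noncomputable def matchNum {V : Type*} (G : SimpleGraph V) : ℕ∞ :=
  ⨆ (M : G.Subgraph) (_ : M.IsMatching), M.edgeSet.encard

/-- `G` is a König graph if its vertex cover number equals its matching number. -/
def IsKonig {V : Type*} (G : SimpleGraph V) : Prop := G.vertexCoverNum = matchNum G

/-- The graph `G + e`. -/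
def addEdge {V : Type*} (G : SimpleGraph V) (e : Sym2 V) : SimpleGraph V :=
  G ⊔ SimpleGraph.fromEdgeSet {e}

/-- The pairs of distinct vertices of `[n]`, that is, the edges of `K_n`. -/
abbrev Pairs (n : ℕ) : Type := {e : Sym2 (Fin n) // ¬ e.IsDiag}

/-- An ordering `e_1, ..., e_N` of all `N = n(n-1)/2` pairs; `e_{i+1}` is `σ i`. -/
abbrev Order (n : ℕ) : Type := Fin (n.choose 2) ≃ Pairs n

open Classical in
/-- The graph `G_i` of the König graph process run with the ordering `σ`:
`G_0` is empty, and `G_{i+1}` is `G_i + e_{i+1}` if that graph is a König graph and `G_i` otherwise.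
(For `i ≥ N` the graph stays constant.) -/
noncomputable def proc {n : ℕ} (σ : Order n) : ℕ → SimpleGraph (Fin n)
  | 0 => ⊥
  | i + 1 =>
    if h : i < n.choose 2 then
      if IsKonig (addEdge (proc σ i) (σ ⟨i, h⟩).1) then addEdge (proc σ i) (σ ⟨i, h⟩).1
      else proc σ i
    else proc σ i

/-- `G` has a perfect matching. -/
def HasPM {V : Type*} (G : SimpleGraph V) : Prop := ∃ M : G.Subgraph, M.IsPerfectMatching

/-- `t` is the time `T`: the first index `t ≤ N` at which `G_t` has a perfect matching. -/
def IsHittingTime {n : ℕ} (σ : Order n) (t : ℕ) : Prop :=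
  t ≤ n.choose 2 ∧ HasPM (proc σ t) ∧ ∀ s < t, ¬ HasPM (proc σ s)

/-- The optimal covers of `G`: its vertex covers of size `τ(G)`. -/
def optCovers {V : Type*} (G : SimpleGraph V) : Set (Set V) :=
  {C | G.IsVertexCover C ∧ C.encard = G.vertexCoverNum}

/-- The event `T = ∞ or G_T has exactly one optimal cover`. -/
def UniqueAtT {n : ℕ} (σ : Order n) : Prop :=
  ∀ t, IsHittingTime σ t → (optCovers (proc σ t)).encard = 1

/-- The event `T < ∞ and G_T has at least two optimal covers`. -/
def TwoAtT {n : ℕ} (σ : Order n) : Prop :=
  ∃ t, IsHittingTime σ t ∧ 2 ≤ (optCovers (proc σ t)).encard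

/-- The probability of an event for the König graph process on `n` vertices, the ordering of the
pairs being uniformly random. -/
noncomputable def prob (n : ℕ) (E : Order n → Prop) : ℝ :=
  (Nat.card {σ : Order n // E σ} : ℝ) / (Nat.card (Order n) : ℝ)

end Q299.Konig
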