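import Pool.Agent.Q299.Konig.Defs

namespace Q299.Konig

open SimpleGraph Finset

section General

set_option linter.unusedSectionVars false

variable {V : Type*} [Fintype V] [DecidableEq V]

/-- A matching as a finite set of edges. -/
def IsM (G : SimpleGraph V) (F : Finset (Sym2 V)) : Prop :=
  (∀ e ∈ F, e ∈ G.edgeSet) ∧ ∀ e ∈ F, ∀ e' ∈ F, ∀ v, v ∈ e → v ∈ e' → e = e'

open Classical in
/-- matching number as a natural number -/
noncomputable def mu (G : SimpleGraph V) : ℕ :=
  (Finset.univ.filter (fun F : Finset (Sym2 V) => IsM G F)).sup Finset.card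

lemma IsM.card_le {G : SimpleGraph V} {F : Finset (Sym2 V)} (h : IsM G F) : F.card ≤ mu G := by
  classical
  unfold mu
  exact Finset.le_sup (f := Finset.card) (by simpa using h)

lemma isM_empty (G : SimpleGraph V) : IsM G ∅ := by
  constructor <;> simp

lemma exists_isM_mu (G : SimpleGraph V) : ∃ F, IsM G F ∧ F.card = mu G := by
  classical
  have hne : (Finset.univ.filter (fun F : Finset (Sym2 V) => IsM G F)).Nonempty :=
    ⟨∅, by simpa using isM_empty G⟩
  obtain ⟨F, hF, hF'⟩ := Finset.exists_mem_eq_sup _ hne Finset.card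
  exact ⟨F, by simpa using hF, by unfold mu; exact hF'.symm⟩

/-- subgraph from a set of edges -/
def toSub (G : SimpleGraph V) (F : Finset (Sym2 V)) (h : IsM G F) : G.Subgraph where
  verts := {v | ∃ e ∈ F, v ∈ e}
  Adj u v := s(u, v) ∈ F
  adj_sub := by
    intro u v huv
    exact h.1 _ huv
  edge_vert := by
    intro u v huv
    exact ⟨_, huv, by simp⟩
  symm := ⟨by
    intro u v huv
    rw [Sym2.eq_swap]
    exact huv⟩

lemma toSub_isMatching {G : SimpleGraph V} {F : Finset (Sym2 V)} (h : IsM G F) :
    (toSub G F h).IsMatching := by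
  intro v hv
  obtain ⟨e, he, hve⟩ := hv
  obtain ⟨w, rfl⟩ := Sym2.mem_iff_exists.1 hve
  refine ⟨w, he, ?_⟩
  intro y hy
  have hy' : s(v, y) ∈ F := hy
  have := h.2 _ he _ hy' v (by simp) (by simp)
  have h2 := Sym2.eq_iff.1 this
  rcases h2 with ⟨_, h3⟩ | ⟨h3, h4⟩
  · exact h3.symm
  · rw [← h3, ← h4]

lemma toSub_edgeSet {G : SimpleGraph V} {F : Finset (Sym2 V)} (h : IsM G F) :
    (toSub G F h).edgeSet = (F : Set (Sym2 V)) := by
  ext e
  induction e using Sym2.ind with
  | _ u v => simp [toSub]

lemma isM_of_isMatching {G : SimpleGraph V} {M : G.Subgraph} (hM : M.IsMatching) :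
    ∃ F, IsM G F ∧ (F : Set (Sym2 V)) = M.edgeSet := by
  classical
  refine ⟨M.edgeSet.toFinset, ⟨?_, ?_⟩, by simp⟩
  · intro e he
    exact M.edgeSet_subset (by simpa using he)
  · intro e he e' he' v hv hv'
    obtain ⟨w, rfl⟩ := Sym2.mem_iff_exists.1 hv
    obtain ⟨w', rfl⟩ := Sym2.mem_iff_exists.1 hv'
    have h1 : M.Adj v w := by simpa using he
    have h2 : M.Adj v w' := by simpa using he'
    rw [hM.eq_of_adj_left h1 h2]

lemma matchNum_eq (G : SimpleGraph V) : matchNum G = (mu G : ℕ∞) := by
  apply le_antisymm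
  · apply iSup₂_le
    intro M hM
    obtain ⟨F, hF, hF'⟩ := isM_of_isMatching hM
    rw [← hF', Set.encard_coe_eq_coe_finsetCard]
    exact_mod_cast hF.card_le
  · obtain ⟨F, hF, hF'⟩ := exists_isM_mu G
    rw [← hF', ← Set.encard_coe_eq_coe_finsetCard, ← toSub_edgeSet hF]
    exact le_iSup₂_of_le (toSub G F hF) (toSub_isMatching hF) le_rfl

/-- Weak duality. -/
lemma mu_le_cover (G : SimpleGraph V) (C : Finset V) (hC : G.IsVertexCover (C : Set V)) :
    mu G ≤ C.card := by
  classical
  obtain ⟨F, hF, hF'⟩ := exists_isM_mu G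
  rw [← hF']
  have hex : ∀ e : Sym2 V, ∃ v : V, e ∈ F → v ∈ C ∧ v ∈ e := by
    intro e
    by_cases he : e ∈ F
    swap
    · exact ⟨e.out.1, fun h => absurd h he⟩
    have hadj := hF.1 e he
    induction e using Sym2.ind with
    | _ u v =>
      have := hC hadj
      rcases this with h | h
      · exact ⟨u, fun _ => ⟨by simpa using h, by simp⟩⟩
      · exact ⟨v, fun _ => ⟨by simpa using h, by simp⟩⟩
  choose f hf using hex
  have hf1 : ∀ e ∈ F, f e ∈ C := fun e he => (hf e he).1
  have hf2 : ∀ e ∈ F, f e ∈ e := fun e he => (hf e he).2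
  apply Finset.card_le_card_of_injOn f
  · intro e he
    exact hf1 e he
  · intro e he e' he' hee
    apply hF.2 e he e' he' (f e) (hf2 e he)
    have := hf2 e' he'
    rw [← hee] at this
    exact this

lemma matchNum_le_vertexCoverNum (G : SimpleGraph V) : matchNum G ≤ G.vertexCoverNum := by
  classical
  obtain ⟨s, hs, hs'⟩ := G.vertexCoverNum_exists
  rw [← hs, matchNum_eq]
  have := mu_le_cover G s.toFinset (by simpa using hs')
  rw [← Set.coe_toFinset s, Set.encard_coe_eq_coe_finsetCard]
  exact_mod_cast this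

lemma mu_mono {G H : SimpleGraph V} (h : G ≤ H) : mu G ≤ mu H := by
  obtain ⟨F, hF, hF'⟩ := exists_isM_mu G
  rw [← hF']
  apply IsM.card_le
  exact ⟨fun e he => edgeSet_mono h (hF.1 e he), hF.2⟩

lemma mem_edgeSet_addEdge {G : SimpleGraph V} {e f : Sym2 V} (he : ¬ e.IsDiag) :
    f ∈ (addEdge G e).edgeSet ↔ f ∈ G.edgeSet ∨ f = e := by
  induction f using Sym2.ind with
  | _ u v =>
    simp only [addEdge, mem_edgeSet, sup_adj, fromEdgeSet_adj, Set.mem_singleton_iff]
    constructor
    · rintro (h | ⟨h, _⟩)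
      · exact Or.inl h
      · exact Or.inr h
    · rintro (h | h)
      · exact Or.inl h
      · refine Or.inr ⟨h, ?_⟩
        rintro rfl
        apply he
        rw [← h]
        simp

lemma le_addEdge (G : SimpleGraph V) (e : Sym2 V) : G ≤ addEdge G e := le_sup_left

/-- cover number increases by at most one when adding an edge. -/
lemma vertexCoverNum_addEdge_le (G : SimpleGraph V) (e : Sym2 V) (a : V) (ha : a ∈ e) (C : Set V)
    (hC : G.IsVertexCover C) : (addEdge G e).IsVertexCover (insert a C) := by
  intro u v huv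
  simp only [addEdge, sup_adj, fromEdgeSet_adj, Set.mem_singleton_iff] at huv
  rcases huv with h | ⟨h, _⟩
  · rcases hC h with h | h
    · left; exact Set.mem_insert_of_mem _ h
    · right; exact Set.mem_insert_of_mem _ h
  · rw [← h, Sym2.mem_iff] at ha
    rcases ha with rfl | rfl
    · left; exact Set.mem_insert _ _
    · right; exact Set.mem_insert _ _

/-- v is missed by F -/
def Missed (F : Finset (Sym2 V)) (v : V) : Prop := ∀ e ∈ F, v ∉ e

/-- **Exchange**: a matching can be replaced by a maximum one covering all its vertices. -/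
lemma exists_max_covering {G : SimpleGraph V} {F : Finset (Sym2 V)} (hF : IsM G F) :
    ∃ F', IsM G F' ∧ F'.card = mu G ∧ ∀ v, Missed F' v → Missed F v := by
  classical
  set S := (Finset.univ.filter (fun F' : Finset (Sym2 V) => IsM G F' ∧ F'.card = mu G)) with hS
  have hne : S.Nonempty := by
    obtain ⟨F', h1, h2⟩ := exists_isM_mu G
    exact ⟨F', by simp [hS, h1, h2]⟩
  obtain ⟨F', hF', hmax⟩ := Finset.exists_max_image S (fun F' => (F' ∩ F).card) hne
  simp only [hS, mem_filter, mem_univ, true_and] at hF' hmax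
  obtain ⟨hM, hcard⟩ := hF'
  refine ⟨F', hM, hcard, ?_⟩
  intro x hx e he hxe
  obtain ⟨y, rfl⟩ := Sym2.mem_iff_exists.1 hxe
  have hnotin : s(x, y) ∉ F' := fun h => hx _ h (by simp)
  have hxy : x ≠ y := by
    have := hF.1 _ he
    exact (G.ne_of_adj this)
  by_cases hy : Missed F' y
  · have hM' : IsM G (insert s(x, y) F') := by
      constructor
      · intro f hf
        rcases Finset.mem_insert.1 hf with rfl | hf
        · exact hF.1 _ he
        · exact hM.1 f hf
      · intro f hf f' hf' v hv hv'
        rcases Finset.mem_insert.1 hf with rfl | hf1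
        · rcases Finset.mem_insert.1 hf' with rfl | hf2
          · rfl
          · exfalso
            rcases Sym2.mem_iff.1 hv with rfl | rfl
            · exact hx _ hf2 hv'
            · exact hy _ hf2 hv'
        · rcases Finset.mem_insert.1 hf' with rfl | hf2
          · exfalso
            rcases Sym2.mem_iff.1 hv' with rfl | rfl
            · exact hx _ hf1 hv
            · exact hy _ hf1 hv
          · exact hM.2 f hf1 f' hf2 v hv hv'
    have := hM'.card_le
    rw [Finset.card_insert_of_notMem hnotin, hcard] at this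
    omega
  · unfold Missed at hy
    push Not at hy
    obtain ⟨f, hf, hyf⟩ := hy
    -- replace f by s(x,y)
    have hfne : f ≠ s(x, y) := fun h => hnotin (h ▸ hf)
    have hM' : IsM G (insert s(x, y) (F'.erase f)) := by
      constructor
      · intro g hg
        rcases Finset.mem_insert.1 hg with rfl | hg
        · exact hF.1 _ he
        · exact hM.1 g (Finset.mem_of_mem_erase hg)
      · have key : ∀ g ∈ F'.erase f, ∀ v, v ∈ s(x, y) → v ∉ g := by
          intro g hg v hv hvg
          have hg' := Finset.mem_of_mem_erase hg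
          rcases Sym2.mem_iff.1 hv with rfl | rfl
          · exact hx _ hg' hvg
          · have := hM.2 g hg' f hf _ hvg hyf
            exact (Finset.ne_of_mem_erase hg) this
        intro g hg g' hg' v hv hv'
        rcases Finset.mem_insert.1 hg with rfl | hg
        · rcases Finset.mem_insert.1 hg' with rfl | hg'
          · rfl
          · exact absurd hv' (key _ hg' v hv)
        · rcases Finset.mem_insert.1 hg' with rfl | hg'
          · exact absurd hv (key _ hg v hv')
          · exact hM.2 g (Finset.mem_of_mem_erase hg) g' (Finset.mem_of_mem_erase hg') v hv hv'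
    have hc : (insert s(x, y) (F'.erase f)).card = mu G := by
      rw [Finset.card_insert_of_notMem (fun h => hnotin (Finset.mem_of_mem_erase h)),
        Finset.card_erase_of_mem hf, hcard]
      have : 0 < F'.card := Finset.card_pos.2 ⟨f, hf⟩
      omega
    have h1 := hmax _ ⟨hM', hc⟩
    have hfF : f ∉ F := by
      intro h
      exact hfne (hF.2 f h _ he y hyf (by simp))
    have h2 : insert s(x, y) (F'.erase f) ∩ F = insert s(x, y) (F' ∩ F) := by
      ext g
      simp only [Finset.mem_inter, Finset.mem_insert, Finset.mem_erase]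
      constructor
      · rintro ⟨rfl | ⟨h3, h4⟩, h5⟩
        · exact Or.inl rfl
        · exact Or.inr ⟨h4, h5⟩
      · rintro (rfl | ⟨h4, h5⟩)
        · exact ⟨Or.inl rfl, he⟩
        · exact ⟨Or.inr ⟨fun h => hfF (h ▸ h5), h4⟩, h5⟩
    rw [h2, Finset.card_insert_of_notMem (by simp [hnotin])] at h1
    omega

open Classical in
lemma card_missed {G : SimpleGraph V} {F : Finset (Sym2 V)} (hF : IsM G F) :
    (Finset.univ.filter (fun v => Missed F v)).card + 2 * F.card = Fintype.card V := by
  have h1 : (Finset.univ.filter (fun v => ¬ Missed F v)) = F.biUnion (fun e => e.toFinset) := by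
    ext v
    simp [Missed]
  have h2 : (F.biUnion (fun e => e.toFinset)).card = 2 * F.card := by
    rw [Finset.card_biUnion]
    · rw [Finset.sum_const_nat (m := 2)]
      · ring
      · intro e he
        have hnd : ¬ e.IsDiag := G.not_isDiag_of_mem_edgeSet (hF.1 e he)
        exact Sym2.card_toFinset_of_not_isDiag e hnd
    · intro e he e' he' hne
      rw [Function.onFun, Finset.disjoint_left]
      intro v hv hv'
      exact hne (hF.2 e he e' he' v (by simpa using hv) (by simpa using hv'))
  have h3 := Finset.card_filter_add_card_filter_not (s := (Finset.univ : Finset V))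
    (fun v => Missed F v)
  rw [h1, h2, Finset.card_univ] at h3
  exact h3

lemma hasPM_of_no_missed {G : SimpleGraph V} {F : Finset (Sym2 V)} (hF : IsM G F)
    (h : ∀ v, ¬ Missed F v) : HasPM G := by
  refine ⟨toSub G F hF, toSub_isMatching hF, ?_⟩
  intro v
  have := h v
  unfold Missed at this
  push Not at this
  exact this

lemma mu_of_hasPM {G : SimpleGraph V} (h : HasPM G) : 2 * mu G = Fintype.card V := by
  classical
  obtain ⟨M, hM, hM'⟩ := h
  obtain ⟨F, hF, hF'⟩ := isM_of_isMatching hM
  have hmiss : ∀ v, ¬ Missed F v := by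
    intro v hv
    obtain ⟨w, hw, _⟩ := hM (hM' v)
    have : s(v, w) ∈ (F : Set (Sym2 V)) := by
      rw [hF']; exact hw
    exact hv _ this (by simp)
  have h1 := card_missed hF
  have h2 : (Finset.univ.filter (fun v => Missed F v)).card = 0 := by
    simp [hmiss]
  obtain ⟨F', hF1, hF2⟩ := exists_isM_mu G
  have h3 := card_missed hF1
  have h4 := hF.card_le
  omega

lemma hasPM_of_two_mu {G : SimpleGraph V} (h : 2 * mu G = Fintype.card V) : HasPM G := by
  classical
  obtain ⟨F, hF1, hF2⟩ := exists_isM_mu G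
  have h3 := card_missed hF1
  apply hasPM_of_no_missed hF1
  intro v hv
  have : 0 < (Finset.univ.filter (fun v => Missed F v)).card :=
    Finset.card_pos.2 ⟨v, by simpa using hv⟩
  omega

lemma isKonig_bot : IsKonig (⊥ : SimpleGraph V) := by
  apply le_antisymm
  · have : (⊥ : SimpleGraph V).vertexCoverNum = 0 := by simp
    rw [this]
    exact bot_le
  · exact matchNum_le_vertexCoverNum _

/-- In a König graph, if both ends of `e` are missed by a maximum matching, then `G + e` is a
König graph. -/
lemma isKonig_addEdge {G : SimpleGraph V} (hG : IsKonig G) {F : Finset (Sym2 V)} (hF : IsM G F)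
    (hcard : F.card = mu G) {e : Sym2 V} (he : ¬ e.IsDiag) (hmiss : ∀ v ∈ e, Missed F v) :
    IsKonig (addEdge G e) := by
  classical
  apply le_antisymm _ (matchNum_le_vertexCoverNum _)
  obtain ⟨C, hC, hC'⟩ := G.vertexCoverNum_exists
  obtain ⟨a, ha⟩ : ∃ a, a ∈ e := ⟨e.out.1, Sym2.out_fst_mem e⟩
  have h1 := (vertexCoverNum_addEdge_le G e a ha C hC').vertexCoverNum_le
  have h2 : (insert a C).encard ≤ C.encard + 1 := Set.encard_insert_le _ _
  have hnot : e ∉ F := fun h => hmiss a ha e h ha
  have hM : IsM (addEdge G e) (insert e F) := by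
    constructor
    · intro f hf
      rw [mem_edgeSet_addEdge he]
      rcases Finset.mem_insert.1 hf with rfl | hf
      · exact Or.inr rfl
      · exact Or.inl (hF.1 f hf)
    · intro f hf f' hf' v hv hv'
      rcases Finset.mem_insert.1 hf with rfl | hf1
      · rcases Finset.mem_insert.1 hf' with rfl | hf2
        · rfl
        · exact absurd hv' (hmiss v hv _ hf2)
      · rcases Finset.mem_insert.1 hf' with rfl | hf2
        · exact absurd hv (hmiss v hv' _ hf1)
        · exact hF.2 f hf1 f' hf2 v hv hv'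
  have h3 := hM.card_le
  rw [Finset.card_insert_of_notMem hnot, hcard] at h3
  have h4 : C.encard = (mu G : ℕ∞) := by rw [hC, hG, matchNum_eq]
  calc (addEdge G e).vertexCoverNum ≤ (insert a C).encard := h1
    _ ≤ C.encard + 1 := h2
    _ = ((mu G + 1 : ℕ) : ℕ∞) := by rw [h4]; push_cast; rfl
    _ ≤ (mu (addEdge G e) : ℕ∞) := by exact_mod_cast h3
    _ = matchNum (addEdge G e) := (matchNum_eq _).symm

end General

section Process

variable {n : ℕ} (σ : Order n)

lemma proc_succ_of_lt {i : ℕ} (h : i < n.choose 2) :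
    (IsKonig (addEdge (proc σ i) (σ ⟨i, h⟩).1) ∧
      proc σ (i + 1) = addEdge (proc σ i) (σ ⟨i, h⟩).1) ∨
    (¬ IsKonig (addEdge (proc σ i) (σ ⟨i, h⟩).1) ∧ proc σ (i + 1) = proc σ i) := by
  classical
  by_cases hk : IsKonig (addEdge (proc σ i) (σ ⟨i, h⟩).1)
  · left
    refine ⟨hk, ?_⟩
    simp only [proc, h, dif_pos]
    rw [if_pos hk]
  · right
    refine ⟨hk, ?_⟩
    simp only [proc, h, dif_pos]
    rw [if_neg hk]

lemma isKonig_proc (i : ℕ) : IsKonig (proc σ i) := by
  induction i with
  | zero => simpa [proc] using isKonig_bot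
  | succ i ih =>
    by_cases h : i < n.choose 2
    · rcases proc_succ_of_lt σ h with ⟨h1, h2⟩ | ⟨_, h2⟩
      · rw [h2]; exact h1
      · rw [h2]; exact ih
    · have : proc σ (i + 1) = proc σ i := by simp [proc, h]
      rw [this]; exact ih

/-- **Main invariant**: at each time there is a maximum matching missing no two vertices whose
pair has already been examined. -/
lemma invariant (i : ℕ) (hi : i ≤ n.choose 2) :
    ∃ F, IsM (proc σ i) F ∧ F.card = mu (proc σ i) ∧
      ∀ j (hj : j < n.choose 2), j < i → ¬ ∀ v ∈ (σ ⟨j, hj⟩).1, Missed F v := by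
  induction i with
  | zero =>
    obtain ⟨F, hF, hF'⟩ := exists_isM_mu (proc σ 0)
    exact ⟨F, hF, hF', fun j _ hj => absurd hj (Nat.not_lt_zero _)⟩
  | succ i ih =>
    obtain ⟨F, hF, hc, hinv⟩ := ih (by omega)
    have hlt : i < n.choose 2 := by omega
    rcases proc_succ_of_lt σ hlt with ⟨h1, h2⟩ | ⟨h1, h2⟩
    · -- accepted
      have hF1 : IsM (proc σ (i + 1)) F := by
        rw [h2]
        exact ⟨fun e he => edgeSet_mono (le_addEdge _ _) (hF.1 e he), hF.2⟩
      obtain ⟨F', hF', hc', hm⟩ := exists_max_covering hF1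
      refine ⟨F', hF', hc', ?_⟩
      intro j hj hji hall
      rcases Nat.lt_succ_iff_lt_or_eq.1 hji with hlt' | rfl
      · exact hinv j hj hlt' (fun v hv => hm v (hall v hv))
      · -- the new edge has both ends missed: contradiction with maximality
        have he := (σ ⟨j, hj⟩).2
        have hnot : (σ ⟨j, hj⟩).1 ∉ F' := by
          intro h
          exact hall _ (Sym2.out_fst_mem _) _ h (Sym2.out_fst_mem _)
        have hM : IsM (proc σ (j + 1)) (insert (σ ⟨j, hj⟩).1 F') := by
          constructor
          · intro f hf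
            rcases Finset.mem_insert.1 hf with rfl | hf
            · rw [h2, mem_edgeSet_addEdge he]
              exact Or.inr rfl
            · exact hF'.1 f hf
          · intro f hf f' hf' v hv hv'
            rcases Finset.mem_insert.1 hf with rfl | hf
            · rcases Finset.mem_insert.1 hf' with rfl | hf'
              · rfl
              · exact absurd hv' (hall v hv _ hf')
            · rcases Finset.mem_insert.1 hf' with rfl | hf'
              · exact absurd hv (hall v hv' _ hf)
              · exact hF'.2 f hf f' hf' v hv hv'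
        have h3 := hM.card_le
        rw [Finset.card_insert_of_notMem hnot, hc'] at h3
        omega
    · -- rejected
      rw [h2]
      refine ⟨F, hF, hc, ?_⟩
      intro j hj hji hall
      rcases Nat.lt_succ_iff_lt_or_eq.1 hji with hlt' | rfl
      · exact hinv j hj hlt' hall
      · exact h1 (isKonig_addEdge (isKonig_proc σ j) hF hc (σ ⟨j, hj⟩).2 hall)

/-- For even `n` the process always reaches a perfect matching. -/
lemma hasPM_final (hn : Even n) : HasPM (proc σ (n.choose 2)) := by
  classical
  obtain ⟨F, hF, hc, hinv⟩ := invariant σ (n.choose 2) le_rfl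
  apply hasPM_of_no_missed hF
  intro v hv
  have h1 := card_missed hF
  have h2 : 0 < (Finset.univ.filter (fun v => Missed F v)).card :=
    Finset.card_pos.2 ⟨v, by simpa using hv⟩
  rw [Fintype.card_fin] at h1
  have h3 : 1 < (Finset.univ.filter (fun v => Missed F v)).card := by
    obtain ⟨k, hk⟩ := hn
    omega
  obtain ⟨a, ha, b, hb, hab⟩ := Finset.one_lt_card.1 h3
  simp only [mem_filter, mem_univ, true_and] at ha hb
  set p : Pairs n := ⟨s(a, b), by simpa using hab⟩ with hp
  have h4 := hinv (σ.symm p) (σ.symm p).2 (σ.symm p).2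
  apply h4
  intro w hw
  have h5 : (σ ⟨(σ.symm p : ℕ), (σ.symm p).2⟩).1 = s(a, b) := by
    have : σ ⟨(σ.symm p : ℕ), (σ.symm p).2⟩ = p := by simp
    rw [this]
  rw [h5, Sym2.mem_iff] at hw
  rcases hw with rfl | rfl
  · exact ha
  · exact hb

lemma not_hasPM_bot (hn : 2 ≤ n) : ¬ HasPM (⊥ : SimpleGraph (Fin n)) := by
  rintro ⟨M, hM, hM'⟩
  obtain ⟨w, hw, _⟩ := hM (hM' ⟨0, by omega⟩)
  exact M.adj_sub hw

lemma exists_hittingTime (hn : Even n) : ∃ t, IsHittingTime σ t := by
  classical
  have hex : ∃ t, HasPM (proc σ t) := ⟨_, hasPM_final σ hn⟩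
  refine ⟨Nat.find hex, Nat.find_min' hex (hasPM_final σ hn), Nat.find_spec hex, ?_⟩
  intro s hs
  exact Nat.find_min hex hs

/-- At the hitting time there are always at least two optimal covers, of size `n/2`. -/
lemma two_covers (hn2 : 2 ≤ n) {t : ℕ} (ht : IsHittingTime σ t) :
    ∃ C D : Set (Fin n), C ≠ D ∧ C ∈ optCovers (proc σ t) ∧ D ∈ optCovers (proc σ t) ∧
      2 * C.ncard = n ∧ 2 * D.ncard = n := by
  classical
  obtain ⟨h1, h2, h3⟩ := ht
  obtain _ | s := t
  · exact absurd h2 (by simpa [proc] using not_hasPM_bot hn2)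
  have hs : s < n.choose 2 := by omega
  have hno := h3 s (Nat.lt_succ_self s)
  rcases proc_succ_of_lt σ hs with ⟨hk, heq⟩ | ⟨_, heq⟩
  swap
  · rw [heq] at h2; exact absurd h2 hno
  set e := (σ ⟨s, hs⟩).1 with he
  have hnd : ¬ e.IsDiag := (σ ⟨s, hs⟩).2
  -- numbers
  have hmu := mu_of_hasPM h2
  rw [Fintype.card_fin] at hmu
  have hmus : mu (proc σ s) < mu (proc σ (s + 1)) := by
    have hle : mu (proc σ s) ≤ mu (proc σ (s + 1)) := by
      rw [heq]; exact mu_mono (le_addEdge _ _)
    rcases Nat.lt_or_eq_of_le hle with h | h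
    · exact h
    · exfalso
      apply hno
      apply hasPM_of_two_mu
      rw [h, Fintype.card_fin]
      exact hmu
  obtain ⟨C, hC, hC'⟩ := (proc σ s).vertexCoverNum_exists
  have hCn : C.encard = (mu (proc σ s) : ℕ∞) := by
    rw [hC, (isKonig_proc σ s), matchNum_eq]
  have hfinal : (proc σ (s + 1)).vertexCoverNum = (mu (proc σ (s + 1)) : ℕ∞) := by
    rw [(isKonig_proc σ (s + 1)), matchNum_eq]
  have key : ∀ a ∈ e, (insert a C) ∈ optCovers (proc σ (s + 1)) ∧ a ∉ C ∧
      2 * (insert a C).ncard = n := by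
    intro a ha
    have hcov : (proc σ (s + 1)).IsVertexCover (insert a C) := by
      rw [heq]; exact vertexCoverNum_addEdge_le _ e a ha C hC'
    have hle1 : (insert a C).encard ≤ C.encard + 1 := Set.encard_insert_le _ _
    have hge := hcov.vertexCoverNum_le
    rw [hfinal] at hge
    have hle2 : (insert a C).encard ≤ (mu (proc σ (s + 1)) : ℕ∞) := by
      refine hle1.trans ?_
      rw [hCn]
      exact_mod_cast hmus
    have heq2 : (insert a C).encard = (mu (proc σ (s + 1)) : ℕ∞) := le_antisymm hle2 hge
    refine ⟨⟨hcov, by rw [heq2, hfinal]⟩, ?_, ?_⟩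
    · intro haC
      rw [Set.insert_eq_of_mem haC, hCn] at heq2
      have : mu (proc σ s) = mu (proc σ (s + 1)) := by exact_mod_cast heq2
      omega
    · have : (insert a C).ncard = mu (proc σ (s + 1)) := by
        rw [Set.ncard, heq2]; simp
      rw [this]; exact hmu
  obtain ⟨a, b, hab⟩ : ∃ a b, e = s(a, b) := by
    induction e using Sym2.ind with
    | _ a b => exact ⟨a, b, rfl⟩
  have hne : a ≠ b := by
    intro h
    apply hnd
    rw [hab, h]
    simp
  have ka := key a (by rw [hab]; simp)
  have kb := key b (by rw [hab]; simp)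
  refine ⟨insert a C, insert b C, ?_, ka.1, kb.1, ka.2.2, kb.2.2⟩
  intro h
  have : a ∈ insert b C := by rw [← h]; exact Set.mem_insert _ _
  rcases this with h' | h'
  · exact hne h'
  · exact ka.2.1 h'

lemma two_le_encard (hn2 : 2 ≤ n) {t : ℕ} (ht : IsHittingTime σ t) :
    2 ≤ (optCovers (proc σ t)).encard := by
  obtain ⟨C, D, hne, hC, hD, _⟩ := two_covers σ hn2 ht
  have h1 : ({C, D} : Set (Set (Fin n))) ⊆ optCovers (proc σ t) := by
    intro x hx
    rcases hx with rfl | rfl
    · exact hC
    · exact hD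
  calc (2 : ℕ∞) = ({C, D} : Set (Set (Fin n))).encard := (Set.encard_pair hne).symm
    _ ≤ _ := Set.encard_le_encard h1

lemma not_uniqueAtT (hn2 : 2 ≤ n) (hn : Even n) : ¬ UniqueAtT σ := by
  intro h
  obtain ⟨t, ht⟩ := exists_hittingTime σ hn
  have h1 := h t ht
  have h2 := two_le_encard σ hn2 ht
  rw [h1] at h2
  norm_num at h2

lemma twoAtT (hn2 : 2 ≤ n) (hn : Even n) : TwoAtT σ := by
  obtain ⟨t, ht⟩ := exists_hittingTime σ hn
  exact ⟨t, ht, two_le_encard σ hn2 ht⟩

end Process

lemma card_order_pos (n : ℕ) : 0 < Nat.card (Order n) := by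
  have : Nonempty (Order n) := by
    have hc : Fintype.card (Pairs n) = n.choose 2 := by
      rw [Sym2.card_subtype_not_diag, Fintype.card_fin]
    exact ⟨(Fintype.equivFinOfCardEq hc).symm⟩
  exact Nat.card_pos

lemma prob_unique_eq_zero {n : ℕ} (hn2 : 2 ≤ n) (hn : Even n) :
    prob n (fun σ => UniqueAtT σ) = 0 := by
  unfold prob
  have : IsEmpty {σ : Order n // UniqueAtT σ} := ⟨fun x => not_uniqueAtT x.1 hn2 hn x.2⟩
  simp

lemma prob_two_eq_one {n : ℕ} (hn2 : 2 ≤ n) (hn : Even n) :
    prob n (fun σ => TwoAtT σ) = 1 := by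
  unfold prob
  have h1 : Nat.card {σ : Order n // TwoAtT σ} = Nat.card (Order n) :=
    Nat.card_congr (Equiv.subtypeUnivEquiv (fun σ => twoAtT σ hn2 hn))
  rw [h1]
  have := card_order_pos n
  field_simp

end Q299.Konig
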